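import Mathlib
import Pool.Agent.H165R2.F5.Main

/-! MP_994f6a_co: bridgeless cubic graphs of oddness at most four admit an `F_5`-flow. -/
set_option autoImplicit false

namespace Pool.Agent.Results.MP_994f6a_co.OddnessFour

/-- the spanning graph formed by the edges outside `M` (for a perfect matching `M` of a cubic graph: the complementary
2-factor, a digon of parallel edges being a single adjacency). -/
abbrev offGraph {V E : Type} (ends : E → Sym2 V) (M : Set E) : SimpleGraph V := H165R2.F5.offGraph ends M

/-- `offGraph` in plain terms. -/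
theorem offGraph_adj {V E : Type} (ends : E → Sym2 V) (M : Set E) (p q : V) :
    (offGraph ends M).Adj p q ↔ p ≠ q ∧ ∃ e, e ∉ M ∧ p ∈ ends e ∧ q ∈ ends e := Iff.rfl

theorem result :
    ∀ (V E : Type) [Fintype V] [DecidableEq V] [Fintype E] [DecidableEq E] (h t : E → V),
      (∀ e, h e ≠ t e) →
      (∀ v, (Finset.univ.filter (fun e => h e = v)).card
              + (Finset.univ.filter (fun e => t e = v)).card = 3) →
      (∀ S : Finset V,
        (Finset.univ.filter (fun e => (h e ∈ S ∧ t e ∉ S) ∨ (h e ∉ S ∧ t e ∈ S))).card ≠ 1) →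
      (∃ M : Set E, (∀ v : V, ∃! e : E, e ∈ M ∧ v ∈ s(h e, t e)) ∧
        (offGraph (fun e => s(h e, t e)) M).oddComponents.ncard ≤ 4) →
      ∃ f : E → (Fin 3 → ZMod 2),
        (∀ e, f e ≠ 0) ∧
        (∀ v, (∑ e ∈ Finset.univ.filter (fun e => h e = v), f e)
              + (∑ e ∈ Finset.univ.filter (fun e => t e = v), f e) = 0) ∧
        (Finset.univ.image
          (fun v => (Finset.univ.filter (fun e => h e = v ∨ t e = v)).image f)).card ≤ 5 :=
  H165R2.F5.T_F2 H165R2.F5.jn

end Pool.Agent.Results.MP_994f6a_co.OddnessFour
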